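import Pool.Agent.H30.Sin
import Pool.Agent.H30.Cont

set_option autoImplicit false

namespace Pool.Agent.Results.MP_a3a891_gt.SinCurve

open Set Filter Topology Real Pool.Agent.H30 Pool.Agent.H30.Sin

lemma key {I : Type} [Countable I] {F : I → Set T} (hF : ∀ i, IsClosed (F i))
    (hd : Pairwise fun i j => Disjoint (F i) (F j)) {C : Set T} {γ : ℝ → ℝ × ℝ} {a b : ℝ}
    (hab : a < b) (hγ : ContinuousOn γ (Ioo a b))
    (h1 : ∀ t ∈ Ioo a b, ∃ p ∈ ⋃ i, F i, p.1 = γ t)
    (h2 : ∀ p ∈ C, p.1 ∈ closure (γ '' Ioo a b)) : ∃ i, C ⊆ F i := by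
  obtain ⟨e, he⟩ := exists_injective_nat I
  have hc : ∀ i, IsClosed (Subtype.val '' F i) := fun i =>
    isCompact_T.isClosed.isClosedMap_subtype_val _ (hF i)
  let A : ℕ → Set (ℝ × ℝ) := fun n => ⋃ i ∈ e ⁻¹' {n}, Subtype.val '' F i
  have hA : ∀ n, IsClosed (A n) := fun n =>
    ((finite_singleton n).preimage he.injOn).isClosed_biUnion fun i _ => hc i
  have hd' : ∀ m n, m ≠ n → Disjoint (A m) (A n) := by
    intro m n hmn
    refine disjoint_left.2 fun x hx hx' => ?_
    obtain ⟨i, hi, p, hp, rfl⟩ := mem_iUnion₂.1 hx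
    obtain ⟨j, hj, q, hq, e'⟩ := mem_iUnion₂.1 hx'
    rw [Subtype.ext e'] at hq
    exact disjoint_left.1 (hd fun h => hmn (by rw [← hi, ← hj, h])) hp hq
  have h3 : ∀ t ∈ Ioo a b, ∃ i, γ t ∈ Subtype.val '' F i := fun t ht => by
    obtain ⟨p, hp, e'⟩ := h1 t ht
    obtain ⟨i, hi⟩ := mem_iUnion.1 hp
    exact ⟨i, p, hi, e'⟩
  obtain ⟨s, hs⟩ := nonempty_Ioo.2 hab
  obtain ⟨i, hi⟩ := h3 s hs
  refine ⟨i, fun p hp => ?_⟩
  have h4 : γ '' Ioo a b ⊆ Subtype.val '' F i := by
    rintro _ ⟨t, ht, rfl⟩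
    obtain ⟨j, hj⟩ := h3 t ht
    have hsub : uIcc s t ⊆ Ioo a b := ordConnected_Ioo.uIcc_subset hs ht
    have := sierp hA hd' (isCompact_uIcc.image_of_continuousOn (hγ.mono hsub))
      (isPreconnected_uIcc.image _ (hγ.mono hsub)) (by
        rintro _ ⟨r, hr, rfl⟩
        obtain ⟨k, hk⟩ := h3 r (hsub hr)
        exact mem_iUnion.2 ⟨e k, mem_biUnion (show k ∈ e ⁻¹' {e k} from rfl) hk⟩)
      (mem_image_of_mem _ left_mem_uIcc) (mem_image_of_mem _ right_mem_uIcc)
      (mem_biUnion (show i ∈ e ⁻¹' {e i} from rfl) hi)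
      (mem_biUnion (show j ∈ e ⁻¹' {e j} from rfl) hj)
    rwa [he this]
  obtain ⟨q, hq, e'⟩ := closure_minimal h4 (hc i) (h2 p hp)
  exact Subtype.ext e' ▸ hq

/-- There is a continuum in which, for every nondegenerate subcontinuum `C`, the set of local
separating points of `C` is not even contained in a union of countably many pairwise disjoint
closed proper subsets of `C`, and which has a connected subset that is not arcwise connected. -/
theorem result :
    ∃ (X : Type) (_ : MetricSpace X), CompactSpace X ∧ ConnectedSpace X ∧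
      (∀ C : Set X, IsCompact C → IsConnected C → C.Nontrivial →
        ∀ (I : Type) [Countable I] (F : I → Set X), (∀ i, IsClosed (F i) ∧ F i ⊆ C ∧ F i ≠ C) →
          (Pairwise fun i j => Disjoint (F i) (F j)) →
          ¬ {p : X | p ∈ C ∧ ∃ V : Set X, IsOpen V ∧ p ∈ V ∧
            ¬ IsPreconnected (connectedComponentIn (V ∩ C) p \ {p})} ⊆ ⋃ i, F i) ∧
      ∃ A : Set X, IsConnected A ∧ ∃ x ∈ A, ∃ y ∈ A, x ≠ y ∧
        ¬ ∃ f : unitInterval → X, Continuous f ∧ Function.Injective f ∧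
          f 0 = x ∧ f 1 = y ∧ Set.range f ⊆ A := by
  haveI : CompactSpace T := isCompact_iff_compactSpace.1 isCompact_T
  haveI : ConnectedSpace T := isConnected_iff_connectedSpace.1 isConnected_T
  have c1 : Continuous fun p : T => p.1.1 := continuous_fst.comp continuous_subtype_val
  have c2 : Continuous fun p : T => p.1.2 := continuous_snd.comp continuous_subtype_val
  refine ⟨T, inferInstance, inferInstance, inferInstance, fun C hC hc hn I _ F hF hd hs => ?_,
    univ, isConnected_univ, ⟨(0, 0), by simp [T]⟩, trivial,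
    ⟨gr 1, ⟨⟨zero_le_one, le_rfl⟩, sin_mem_Icc _, fun _ => rfl⟩⟩, trivial,
    (fun h => by
      have := congrArg (fun p : T => p.1.1) h
      simp [gr] at this), ?_⟩
  · suffices h : ∃ i, C ⊆ F i by
      obtain ⟨i, hi⟩ := h
      exact (hF i).2.2 ((hF i).2.1.antisymm hi)
    obtain ⟨u, hu, hu'⟩ := hC.exists_isMinOn hc.1 c1.continuousOn
    obtain ⟨v, hv, hv'⟩ := hC.exists_isMaxOn hc.1 c1.continuousOn
    rcases (show u.1.1 ≤ v.1.1 from hu' hv).eq_or_lt with e | hlt
    · obtain ⟨u', hu1, hu1'⟩ := hC.exists_isMinOn hc.1 c2.continuousOn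
      obtain ⟨v', hv1, hv1'⟩ := hC.exists_isMaxOn hc.1 c2.continuousOn
      have hx : ∀ q ∈ C, q.1.1 = u.1.1 := fun q hq => le_antisymm (e ▸ hv' hq) (hu' hq)
      rcases (show u'.1.2 ≤ v'.1.2 from hu1' hv1).eq_or_lt with e' | hlt'
      · refine absurd (fun p hp q hq => Subtype.ext (Prod.ext ?_ ?_)) hn.not_subsingleton
        · rw [hx p hp, hx q hq]
        · have a1 : u'.1.2 ≤ p.1.2 := hu1' hp
          have a2 : p.1.2 ≤ v'.1.2 := hv1' hp
          have a3 : u'.1.2 ≤ q.1.2 := hu1' hq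
          have a4 : q.1.2 ≤ v'.1.2 := hv1' hq
          linarith
      · have cg : Continuous fun y : ℝ => (u.1.1, y) := by fun_prop
        refine key (fun i => (hF i).1) hd hlt' cg.continuousOn (fun y hy => ?_) fun p hp => ?_
        · obtain ⟨p, hp, hpy⟩ := hc.2.intermediate_value hu1 hv1 c2.continuousOn ⟨hy.1.le, hy.2.le⟩
          have hpy' : p.1.2 = y := hpy
          refine ⟨p, hs (cut hc.2 c2 hp hu1 hv1 (fun q hq h => Subtype.ext (Prod.ext ?_ h))
            (hpy' ▸ hy.1) (hpy' ▸ hy.2)), Prod.ext (hx p hp) hpy⟩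
          rw [hx p hp, hx q hq]
        · have : p.1 = (u.1.1, p.1.2) := Prod.ext (hx p hp) rfl
          rw [this]
          refine mem_closure_image cg.continuousAt ?_
          rw [closure_Ioo hlt'.ne]
          exact ⟨hu1' hp, hv1' hp⟩
    · refine key (γ := gr) (fun i => (hF i).1) hd hlt
        (fun _ hx => (gr_cont (u.2.1.1.trans_lt hx.1).ne').continuousWithinAt) (fun x hx => ?_)
        fun p hp => mem_clos u.2.1.1 hlt p.2 (hu' hp) (hv' hp)
      obtain ⟨p, hp, hpx⟩ := hc.2.intermediate_value hu hv c1.continuousOn ⟨hx.1.le, hx.2.le⟩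
      have hpx' : p.1.1 = x := hpx
      have hpos : 0 < p.1.1 := hpx' ▸ u.2.1.1.trans_lt hx.1
      refine ⟨p, hs (cut hc.2 c1 hp hu hv (fun q hq h => Subtype.ext (Prod.ext h ?_))
        (hpx' ▸ hx.1) (hpx' ▸ hx.2)), Prod.ext hpx ?_⟩
      · have h' : q.1.1 = p.1.1 := h
        rw [q.2.2.2 (h' ▸ hpos), p.2.2.2 hpos, h']
      · rw [p.2.2.2 hpos, hpx']; rfl
  · rintro ⟨f, hf, -, h0, h1, -⟩
    refine no_path (fun t => (f (projIcc 0 1 zero_le_one t)).1)
      (continuous_subtype_val.comp (hf.comp (continuous_projIcc (h := zero_le_one))))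
      (fun t => (f _).2) ?_ ?_
    · have : projIcc (0:ℝ) 1 zero_le_one 0 = (0 : unitInterval) := projIcc_left _
      simp only [this, h0]
    · have : projIcc (0:ℝ) 1 zero_le_one 1 = (1 : unitInterval) := projIcc_right _
      simp only [this, h1, gr]

end Pool.Agent.Results.MP_a3a891_gt.SinCurve
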